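import Mathlib
import Pool.Agent.Helper99.CT.Defs

/-!
Packet CT-SHO: a word that is not reduced can be shortened.
-/

set_option autoImplicit false

namespace Pool.Agent.Helper14.CT

open Pool.Agent.Helper99.CT

variable {n : ℕ}

theorem comp_mv (π : Equiv.Perm (Fin n)) (S T : Finset (Fin n)) :
    Comp (mv π S) (mv π T) ↔ Comp S T := by
  unfold Comp mv
  rw [Finset.map_subset_map, Finset.map_subset_map, Finset.disjoint_map]

theorem mv_inj (π : Equiv.Perm (Fin n)) (S T : Finset (Fin n)) (h : mv π S = mv π T) : S = T :=
  Finset.map_injective _ h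

theorem first_map (π : Equiv.Perm (Fin n)) (v : Finset (Fin n)) (w : List (Finset (Fin n))) :
    First Comp (mv π v) (w.map (mv π)) ↔ First Comp v w := by
  induction w with
  | nil => exact Iff.rfl
  | cons a u ih =>
    simp only [List.map_cons, First, ih, comp_mv]
    have : mv π a = mv π v ↔ a = v := ⟨mv_inj π a v, fun h => by rw [h]⟩
    rw [this]

theorem red_map (π : Equiv.Perm (Fin n)) (w : List (Finset (Fin n))) :
    Red Comp (w.map (mv π)) ↔ Red Comp w := by
  induction w with
  | nil => exact Iff.rfl
  | cons a u ih =>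
    simp only [List.map_cons, Red, ih, first_map]

theorem mem_pts (g : Gen n) (i : Fin n) : i ∈ pts g ↔ g.p ≤ i.1 + 1 ∧ i.1 + 1 ≤ g.q := by
  simp [pts]

theorem flip_apply (g : Gen n) (i : Fin n) : flip g i = flipFun g i := rfl

theorem mv_flip_pts (g : Gen n) : mv (flip g) (pts g) = pts g := by
  ext i
  have hle := g.le
  have hone := g.one_le
  have hlt := g.lt
  simp only [mv, Finset.mem_map, Equiv.coe_toEmbedding]
  constructor
  · rintro ⟨j, hj, rfl⟩
    rw [mem_pts] at hj ⊢
    rw [flip_apply, flipFun_val]
    split_ifs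
    omega
  · intro hi
    refine ⟨flipFun g i, ?_, ?_⟩
    · rw [mem_pts] at hi ⊢
      rw [flipFun_val]
      split_ifs
      omega
    · rw [flip_apply, flipFun_flipFun]

theorem pts_inj (g h : Gen n) (hgh : pts h = pts g) : h = g := by
  have key : ∀ a b : Gen n, pts a = pts b → b.p ≤ a.p ∧ a.q ≤ b.q := by
    intro a b hab
    have a1 := a.le
    have a2 := a.one_le
    have a3 := a.lt
    have h1 : (⟨a.p - 1, by omega⟩ : Fin n) ∈ pts a := by
      rw [mem_pts]
      constructor
      · show a.p ≤ a.p - 1 + 1
        omega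
      · show a.p - 1 + 1 ≤ a.q
        omega
    have h2 : (⟨a.q - 1, by omega⟩ : Fin n) ∈ pts a := by
      rw [mem_pts]
      constructor
      · show a.p ≤ a.q - 1 + 1
        omega
      · show a.q - 1 + 1 ≤ a.q
        omega
    rw [hab, mem_pts] at h1 h2
    have h3 : b.p ≤ a.p - 1 + 1 := h1.1
    have h4 : a.q - 1 + 1 ≤ b.q := h2.2
    constructor <;> omega
  obtain ⟨k1, k2⟩ := key h g hgh
  obtain ⟨k3, k4⟩ := key g h hgh.symm
  have e1 : h.p = g.p := le_antisymm k3 k1
  have e2 : h.q = g.q := le_antisymm k2 k4
  cases g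
  cases h
  simp only at e1 e2
  subst e1
  subst e2
  rfl

theorem word_cons (g : Gen n) (L : List (Gen n)) : word (g :: L) = s g * word L := by
  simp [word]

/-- The packet. -/
theorem short (hE : GoalExt) : GoalShort := by
  intro n L
  induction L with
  | nil => intro h; exact absurd trivial h
  | cons g L ih =>
    intro h
    have h' : ¬ (¬ First Comp (pts g) ((letters L).map (mv (flip g))) ∧
        Red Comp ((letters L).map (mv (flip g)))) := h
    by_cases hR : Red Comp (letters L)
    · have hF : First Comp (pts g) ((letters L).map (mv (flip g))) := by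
        by_contra hF
        exact h' ⟨hF, (red_map _ _).2 hR⟩
      rw [← mv_flip_pts g, first_map] at hF
      obtain ⟨k, L₁, hk, hlen, hw, -⟩ := hE n (pts g) L hF
      have hkg : k = g := pts_inj g k hk
      subst hkg
      refine ⟨L₁, ?_, ?_⟩
      · simp only [List.length_cons]
        omega
      · rw [word_cons, hw, ← mul_assoc, s_sq, one_mul]
    · obtain ⟨L', hl, hw⟩ := ih hR
      refine ⟨g :: L', ?_, ?_⟩
      · simp only [List.length_cons]
        omega
      · rw [word_cons, word_cons, hw]

end Pool.Agent.Helper14.CT
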